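import Pool.Agent.Lib.MP_b5021c_nt.IfaceOF

/-!
# Row OF_FCM of PaperOF.md: the face of a family of disjoint exponents
-/

namespace Pool.Agent.B5.H78.Fcm

open Pool.Agent.B5

theorem fcm (hE2 : E2S) (hPoly : PolyS) (hAs : AsanoS) : FcmS := by
  intro O _ _ _ _ P L _ _ _ _ _ phi D m E hDD hfr hB hE0 hdis z y hy
  have h0 := (hE2 O P L phi D hDD hfr).1
  obtain ⟨hzf, hcf⟩ := hPoly O P L phi D hDD.inj hDD.bin hDD.st z (h0 z)
  set B : Fin m → Finset P := fun i => Finset.univ.filter (fun p => phi (E i) p = 1) with hBdef
  have hmem : ∀ i p, p ∈ B i ↔ phi (E i) p = 1 := by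
    intro i p
    simp [hBdef]
  have key := hAs P (cfz phi z D) hzf m B
    (by
      intro i j hij
      rw [Finset.disjoint_left]
      intro p hp hp'
      rw [hmem] at hp hp'
      rcases hdis i j hij p with h | h
      · rw [h] at hp; exact absurd hp (by norm_num)
      · rw [h] at hp'; exact absurd hp' (by norm_num))
    (by
      intro i
      by_contra hcon
      rw [Finset.not_nonempty_iff_eq_empty] at hcon
      apply hE0 i
      apply hDD.inj
      rw [map_zero]
      funext p
      rcases hB i p with h | h
      · exact h
      · have : p ∈ B i := (hmem i p).2 h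
        rw [hcon] at this
        exact absurd this (Finset.notMem_empty p))
    y hy
  have hc : ∀ I : Finset (Fin m), cfz phi z D (I.biUnion B) = evR z (D.coeff (∑ i ∈ I, E i)) := by
    intro I
    apply hcf
    intro p
    rw [map_sum, Finset.sum_apply]
    by_cases hp : p ∈ I.biUnion B
    · rw [if_pos hp]
      obtain ⟨i, hi, hpi⟩ := Finset.mem_biUnion.1 hp
      rw [hmem] at hpi
      rw [Finset.sum_eq_single i]
      · exact hpi
      · intro j _ hji
        rcases hdis j i hji p with h | h
        · exact h
        · rw [h] at hpi; exact absurd hpi (by norm_num)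
      · intro hcon
        exact absurd hi hcon
    · rw [if_neg hp]
      apply Finset.sum_eq_zero
      intro i hi
      rcases hB i p with h | h
      · exact h
      · exact absurd (Finset.mem_biUnion.2 ⟨i, hi, (hmem i p).2 h⟩) hp
  simp only [hc] at key
  exact key

end Pool.Agent.B5.H78.Fcm
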